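import Pool.Agent.Lib.MP_767f1c_pr.U.Final
import Pool.Agent.Lib.MP_767f1c_pr.NonuniMain

/-!
# MP_767f1c_pr, Q1: every transitive graph of even degree which is not quasi-isometric to `ℤ` has
a factor-of-iid balanced orientation
-/

set_option autoImplicit false

namespace Pool.Agent.Results.MP_767f1c_pr.NotQuasiIsometric

open MeasureTheory Pool.Agent.FIIDU

/-- `O` (with `O x y = true` meaning that the edge `xy` is oriented from `x` to `y`) is a balanced
orientation of `G`: exactly the edges are oriented, every edge in exactly one of its two
directions, and every vertex has out-degree `d` and in-degree `d`. -/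
structure IsBalancedOrientation {V : Type} (G : SimpleGraph V) (d : ℕ) (O : V → V → Bool) :
    Prop where
  adj : ∀ x y, O x y = true → G.Adj x y
  one : ∀ x y, G.Adj x y → (O x y = true ↔ O y x = false)
  out : ∀ x, {y | O x y = true}.ncard = d
  inn : ∀ x, {y | O y x = true}.ncard = d

/-- `G` has a factor-of-iid balanced orientation: a measurable map `Φ` from labellings of the
vertices by points of `[0,1]` to orientations which commutes with every automorphism of `G` and
is a balanced orientation almost surely for independent uniform labels. -/
def HasFIIDBalancedOrientation {V : Type} (G : SimpleGraph V) (d : ℕ) : Prop :=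
  ∃ Φ : (V → unitInterval) → (V → V → Bool), Measurable Φ ∧
    (∀ (φ : G ≃g G) (ω : V → unitInterval) (x y : V),
      Φ (fun v => ω (φ v)) x y = Φ ω (φ x) (φ y)) ∧
    ∀ᵐ ω ∂(Measure.infinitePi (fun _ : V => (volume : Measure unitInterval))),
      IsBalancedOrientation G d (Φ ω)

/-- The connected graph `G` with its graph metric is quasi-isometric to `ℤ`. -/
def QuasiIsometricToInt {V : Type} (G : SimpleGraph V) : Prop :=
  ∃ (f : V → ℤ) (A : ℕ), (∀ x y, |f x - f y| ≤ A * G.dist x y + A ∧
    (G.dist x y : ℤ) ≤ A * |f x - f y| + A) ∧ ∀ n : ℤ, ∃ x, |f x - n| ≤ A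

/-- Every connected, locally finite, vertex transitive graph of degree `2d` which is not
quasi-isometric to `ℤ` has a factor-of-iid balanced orientation. -/
theorem result {V : Type} [Countable V] (G : SimpleGraph V) [G.LocallyFinite] (d : ℕ)
    (hconn : G.Connected) (hreg : ∀ x, G.degree x = 2 * d)
    (htr : ∀ x y : V, ∃ φ : G ≃g G, φ x = y) (hqi : ¬ QuasiIsometricToInt G) :
    HasFIIDBalancedOrientation G d := by
  classical
  by_cases huni : ∀ x y : V, (FIIDBO.orb G x y).ncard = (FIIDBO.orb G y x).ncard
  · have hs : Std G d := by
      refine ⟨hconn, htr, fun x => ?_, fun x => ?_, huni⟩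
      · exact (G.neighborFinset x).finite_toSet.subset fun y hy => by
          simpa using hy
      · have h1 : {y | G.Adj x y} = (G.neighborFinset x : Set V) := by
          ext y
          simp
        rw [h1, Set.ncard_coe_finset]
        exact hreg x
    obtain ⟨O, hO, hb⟩ := bo_of_std hs hqi
    refine ⟨fun ω x y => decide (O (toBits ω) x y), ?_, ?_, ?_⟩
    · refine measurable_pi_lambda _ fun x => measurable_pi_lambda _ fun y => ?_
      exact measurable_to_bool (by
        have h1 : (fun ω : V → unitInterval => decide (O (toBits ω) x y)) ⁻¹' {true} =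
            {ω | O (toBits ω) x y} := by
          ext ω
          simp
        rw [h1]
        exact measurableSet_setOfPred.mpr ((hO.meas x y).comp toBits_mp.measurable))
    · intro φ ω x y
      have h1 : toBits (fun v => ω (φ v)) = act φ (toBits ω) := rfl
      simp only [h1, hO.equi φ (toBits ω) x y]
    · filter_upwards [toBits_mp.quasiMeasurePreserving.ae hb] with ω hω
      refine ⟨fun x y hxy => ?_, fun x y hxy => ?_, fun x => ?_, fun x => ?_⟩
      · exact (hω x).out y (of_decide_eq_true hxy)
      · rw [decide_eq_true_iff, decide_eq_false_iff_not]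
        exact (hω x).one y hxy
      · have := (hω x).deg hs
        rw [← this.1]
        unfold dg
        congr 1
        ext y
        simp
      · have := (hω x).deg hs
        rw [← this.2]
        unfold dgi
        congr 1
        ext y
        simp
  · push Not at huni
    obtain ⟨Φ, h1, h2, h3⟩ := FIIDBO.Nonuni.main G d hconn hreg htr huni
    refine ⟨Φ, h1, h2, ?_⟩
    filter_upwards [h3] with ω hω
    exact ⟨hω.adj, hω.one, hω.out, hω.inn⟩

end Pool.Agent.Results.MP_767f1c_pr.NotQuasiIsometric
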